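import Pool.Agent.Y577.AD.Top
import Pool.Agent.Y577.AD.Forced

set_option autoImplicit false

/-!
MP_bcfe2b_lc, Q2: ZFC does not prove that there is an almost disjoint family on `N*` of cardinality
`2 ^ 2 ^ ℵ₀`.

* In ZFC: if there is no strictly increasing sequence of length `μ⁺` of subsets of `ℕ` modulo
  finite sets, then all almost disjoint families on `N*` have cardinality at most `2 ^ μ`.
  For a member `U` of the family outside a suitable subfamily of size `2 ^ μ` the intersections
  of `U` with the members of the subfamily are clopen and any `μ` of them are contained in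
  another one. As there are no chains of length `μ⁺` there is a largest one; it is compact, so it
  is not all of `U`, and a small clopen subset of the rest is contained in a member of the
  subfamily, a contradiction.
* Adding `2 ^ μ` Cohen reals, `μ = 2 ^ ℵ₀`, preserves cardinals, forces `2 ^ μ = 2 ^ ℵ₀` and (by an
  argument of Kunen, swapping two isomorphic names) forces that there are no such sequences of
  length `μ⁺`.

So in the extension all almost disjoint families on `N*` have cardinality at most `2 ^ ℵ₀`.
-/

namespace Pool.Agent.Results.MP_bcfe2b_lc.NoHugeFamily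

open Set Cardinal Pool.Agent.Helper669.Forcing Pool.Agent.Y577.AD.Kunen Pool.Agent.Y577.AD.Forced
open Pool.Agent.Y577.AD.Top (NStar NoChain)

/-- An almost disjoint family on a topological space: regular open non-compact sets with pairwise
compact intersections. -/
def IsADFamily {X : Type} [TopologicalSpace X] (A : Set (Set X)) : Prop :=
  (∀ U ∈ A, interior (closure U) = U ∧ ¬ IsCompact U) ∧
    ∀ U ∈ A, ∀ V ∈ A, U ≠ V → IsCompact (U ∩ V)

/-- (1) There are a forcing notion `P`, an infinite cardinal `μ` and a set `K` such that every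
condition forces: cardinals are preserved (so the ground model successor `μ⁺` is the successor of
`μ` in the extension), some map from `K` to the power set of `μ` is onto, some map from `K` to the
power set of `ℕ` is one-to-one (so `2 ^ μ = 2 ^ ℵ₀`), and there is no strictly increasing sequence
modulo finite sets of subsets of `ℕ` indexed by `μ⁺`.
(2) In ZFC, these properties of `μ` and `K` imply that every almost disjoint family on `N*` has
cardinality at most `2 ^ ℵ₀`, so less than `2 ^ 2 ^ ℵ₀`. -/
theorem result :
    (∃ (P : Type) (_ : Preorder P) (μ : Cardinal.{0}) (K : Type), Nonempty P ∧ ℵ₀ ≤ μ ∧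
      ∀ p : P, p ∈ CardinalsPreserved.{0, 0} P ∧ p ∈ PowLe P μ.out K ∧ p ∈ ManyReals P K ∧
        p ∈ fnot (HasChain P (Order.succ μ).ord.ToType)) ∧
    (∀ (μ : Cardinal.{0}) (K : Type), ℵ₀ ≤ μ → (∃ E : K → Set μ.out, Function.Surjective E) →
      (∃ E : K → Set ℕ, Function.Injective E) → NoChain μ →
      ∀ A : Set (Set NStar), IsADFamily A →
        #A ≤ 2 ^ ℵ₀ ∧ #A < (2 : Cardinal.{0}) ^ ((2 : Cardinal.{0}) ^ ℵ₀)) := by
  constructor
  · have hinf : ℵ₀ ≤ (2 : Cardinal.{0}) ^ (𝔠 : Cardinal.{0}) :=
      Cardinal.aleph0_le_continuum.trans (Cardinal.cantor _).le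
    let K : Type := ((2 : Cardinal.{0}) ^ (𝔠 : Cardinal.{0})).out
    have hK : #K = 2 ^ (𝔠 : Cardinal.{0}) := Cardinal.mk_out _
    have hK0 : ℵ₀ < #K := by
      rw [hK]
      exact Cardinal.aleph0_lt_continuum.trans (Cardinal.cantor _)
    have hKne : Nonempty K := by
      rw [← Cardinal.mk_ne_zero_iff]
      exact (Cardinal.aleph0_pos.trans hK0).ne'
    refine ⟨Pool.Agent.H458R4.Cohen.Fn K, inferInstance, 𝔠, K, inferInstance,
      Cardinal.aleph0_le_continuum, fun p => ⟨cardinalsPreserved p, powLe hK0 ?_ ?_ p,
        manyReals p, no_chain ?_ p⟩⟩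
    · rw [Cardinal.mk_out]
      exact Cardinal.aleph0_le_continuum
    · rw [hK, Cardinal.mk_out, ← Cardinal.power_mul, Cardinal.continuum_mul_self]
    · rw [Cardinal.mk_ord_toType]
      exact Order.lt_succ _
  · rintro μ K hμ ⟨E, hE⟩ ⟨E', hE'⟩ hch A ⟨hA1, hA2⟩
    have h1 : #A ≤ 2 ^ μ := by
      refine Pool.Agent.Y577.AD.Top.card_le hμ hch A (fun U hU => ?_) (fun U hU => (hA1 U hU).2) hA2
      rw [← (hA1 U hU).1]
      exact isOpen_interior
    have h2 : (2 : Cardinal.{0}) ^ μ ≤ 2 ^ ℵ₀ := by
      have h3 : #(Set μ.out) ≤ #K := Cardinal.mk_le_of_surjective hE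
      have h4 : #K ≤ #(Set ℕ) := Cardinal.mk_le_of_injective hE'
      rw [Cardinal.mk_set, Cardinal.mk_out] at h3
      rw [Cardinal.mk_set, Cardinal.mk_nat] at h4
      exact h3.trans h4
    exact ⟨h1.trans h2, (h1.trans h2).trans_lt (Cardinal.cantor _)⟩

end Pool.Agent.Results.MP_bcfe2b_lc.NoHugeFamily
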